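import Pool.Agent.Helper64.WRT.Asym
import Pool.Agent.Helper64.WRT.Generic

open Filter Topology Pool.Agent.Helper64.WRT

/-- **The growth rate conjecture for quantum invariants fails.** There is a closed oriented
3-manifold `M` (the Hantzsche-Wendt manifold, presented by surgery on a framed pure braid `β`)
such that for `G = SU(2)` the exponent `d` of the conjecture is `1/2`, but
`r^{-d} |Z_k(M)|` tends to infinity (`r = k + 2`), so `|Z_k(M)|` is not `O(r^d)`.

The exponent is computed from the partition of the moduli space of flat connections into the level
sets of the Chern-Simons functional. That functional is locally constant, and the theorem is proved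
for all locally constant functions `cs` from the moduli space to `ℝ/ℤ`. -/
theorem Pool.Agent.Results.MP_1eb459_gt.GrowthRateFails.result :
    ∃ β : FramedPureBraid, ∀ cs : Moduli β.π₁ → AddCircle (1 : ℝ), IsLocallyConstant cs →
      growthExponent cs = 1 / 2 ∧
      Tendsto (fun k : ℕ => ‖ZZ k β‖ / ((k + 2 : ℕ) : ℝ) ^ growthExponent cs) atTop atTop := by
  refine ⟨HW, fun cs hcs => ?_⟩
  have h := growthExponent_eq hcs
  exact ⟨h, h ▸ tendsto_ZZ_half⟩
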